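import Pool.Agent.W_a3c811_h30.Fin

/-! Independence of `l` for motives of Calabi-Yau type, without weight monodromy. -/

namespace Pool.Agent.Results.MP_a3c811_ag.CalabiYau

open Pool.Agent.WeilH_h6 Pool.Agent.WeilH_h6.VarClass Pool.Agent.H62A Pool.Agent.H62S
  Pool.Agent.H79S Pool.Agent.H30S

universe u v w

/-- Let `W l` be a compatible family of Weil cohomology theories and `X` the strata of the special
fibre of a semistable degeneration of varieties of dimension `n = 2 m + 1`, with restrictions, Gysin
maps, a Lefschetz operator `L` and its dual `Lam`, all given by cycles which do not depend on `l` (for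
`Lam` this is the Lefschetz standard conjecture for the strata).  Let `M` be the realisations of a
motive cut out by the motivic projector `ε` of the strata, with Frobenius `c j` times the motivic `ψ`
on the parts of weight `j`, where `c (n + 1) = p ^ (m + 1)` for a prime number `p`.  Suppose that in
all theories
* the hard Lefschetz theorem holds for the `E_2`-term (a theorem of Deligne);
* the primitive parts `(i, j)` with `1 ≤ i`, `1 ≤ j` have no nonzero motivic endomorphism of square
  zero as in `NoSquareZero`, and for `2 ≤ i` the map `N ^ i` is bijective from position `-i` to
  position `i` in the middle degree `n` (or `i = 2` and `(2, 0)` has no such endomorphism) (for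
  `n = 3` these are theorems of Weil);
* the index theorem holds for the classes of cycles in the primitive part `(1, 0)` (for divisors a
  theorem);
* the dimension of `V^n` is the same.
Suppose that for ONE theory `l0` the characteristic polynomial `P` of Frobenius on `V^n` is rational
and
* the Newton polygon for `p` of the rational polynomial `P'` with the roots `p ^ n / z` (`P' = P` if
  `V^n` is self-dual) lies above the line of slope `m` through the point `(0, -1)`.  By Newton above
  Hodge this holds for motives over the `p`-adic numbers with `h^{j,n-j} = 0` for `j < m - 1` and
  `h^{m-1,m+2} ≤ 1`, for instance (`n = 3`) if `h^{3,0} ≤ 1`;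
* some rational polynomial `T` has `T (ψ) = 0` on the transcendental cocycles of the primitive part
  `(1, 0)` (the primitive cohomology in the middle degree of the double locus) cut out by `ε`, and its
  roots `z` for which `p ^ (m + 1) z` is a multiple root of `P` have absolute value one and are not
  roots of unity (this follows from the Weil conjectures and the Tate conjecture for the double
  locus, or if `P` has no multiple root which is `p ^ (m + 1)` times a root of unity).
Then, although weight monodromy may fail, the characteristic polynomials of Frobenius on `V^w` and on
its inertia invariants are rational and do not depend on `l`, for all `w`. -/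
theorem result (k : Type u) [Field k] (𝒱 : VarClass k) (I : Type) (K : I → Type v)
    [∀ l, Field (K l)] [∀ l, CharZero (K l)] (W : ∀ l, Weil.{u, v, w} 𝒱 (K l))
    (hW : Compatible W) (X : Strata W) (ε ψ : ∀ l, TEnd (W l) X.Y) (hc : Cut X ε ψ ψ)
    (G : ∀ l, Set (TEnd (W l) X.Y)) (hG : ∀ l, CompatSet X l (G l))
    (hK : ∀ l, Known X l (G l)) (M : X.Motive) (c : ℤ → ℚ) (hM : CutBy M ε ψ c)
    (hd : ∀ l l', dimV M l = dimV M l') (l0 : I) (p m : ℕ) (hp : p.Prime)
    (hcp : c (X.n + 1) = (p : ℚ) ^ (m + 1)) (hN : NewtonAbove M l0 (ε l0) (ψ l0) p m) :
    M.Independence :=
  Pool.Agent.H30C.indepN hW X ε ψ hc G hG hK M c hM hd l0 p m hp hcp hN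

end Pool.Agent.Results.MP_a3c811_ag.CalabiYau
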