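import Pool.Agent.W_MP_a3c811_h79.Mix.Tr
import Pool.Agent.W_MP_a3c811_h79.MF.TrS
import Pool.Agent.W_a3c811_h77.Pow77

/-! Weight monodromy and independence of `l` from conditions on the double locus in one theory. -/

namespace Pool.Agent.Results.MP_a3c811_ag.DoubleLocus

open Polynomial Pool.Agent.WeilH_h6 Pool.Agent.WeilH_h6.VarClass Pool.Agent.H62A Pool.Agent.H62S

universe u v w

variable {k : Type u} [Field k] {𝒱 : VarClass k} {I : Type} {K : I → Type v} [∀ l, Field (K l)]
  [∀ l, CharZero (K l)] {W : ∀ l, Weil.{u, v, w} 𝒱 (K l)} {X : Strata W}

/-- For all `l`, the characteristic polynomial of Frobenius on `V^w` is `A`, and on the kernel in `V^w`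
of the `j`-th power of the monodromy operator it is `B j`; for `j = 1` the kernel is the space of
inertia invariants. -/
def Law (M : X.Motive) (w : ℤ) (A : ℚ[X]) (B : ℕ → ℚ[X]) : Prop :=
  ∀ l, CharpolyOn (M.φ l) (M.deg l w) A ∧
    ∀ j : ℕ, CharpolyOn (M.φ l) (kerIn (M.ν l ^ j) (M.deg l w)) (B j)

/-- Let `W l` be a compatible family of Weil cohomology theories and `X` the strata of the special
fibre of a semistable degeneration of varieties of dimension `n`, with restrictions, Gysin maps, a
Lefschetz operator `L` and its dual `Lam`, all given by cycles which do not depend on `l` (for `Lam`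
this is the Lefschetz standard conjecture for the strata), such that the Betti number of the
`E_2`-term does not depend on `l`.  Suppose that for ONE theory `l0` the hard Lefschetz theorem holds
for the `E_2`-term (a theorem of Deligne), that `G` is a set of endomorphisms of the cohomology of the
strata which respect levels and degrees and commute with the restrictions, the Gysin maps and `L`
(powers of the normalised Frobenius, automorphisms, the monodromy of a family of special fibres), that
for `i ≥ i0` the map `N ^ i` of weight monodromy is bijective in the middle degree `n`, and that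
the primitive parts `(i, j)` with `i, j ≥ 1` and the parts `(i, 0)` with `1 ≤ i < i0` are good: there
is no nonzero motivic endomorphism of square zero which is self-adjoint for the form `Tr (x L^j y)`,
commutes with `G` and vanishes where `res` and `gys` vanish, or the index theorem holds for a stable
group of classes of cycles and on its orthogonal complement there is no nonzero linear endomorphism
with the same properties.  Then for ALL `l` weight monodromy holds in all degrees for all realisations
of motives computed by the `E_1`-term, and the characteristic polynomials of Frobenius on `V^w` and on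
the kernels in `V^w` of all powers of the monodromy operator (the kernel of the operator itself is the
space of inertia invariants) are rational and do not depend on `l`.  For `i0 = n + 1` nothing is assumed
about weight monodromy and nothing about the components; for `i0 = 1` weight monodromy in the middle
degree for one `l` is transferred to all degrees and all `l`, and for `n ≤ 3` there is no condition on
the primitive parts (those of degree at most one are good by a theorem of Weil). -/
theorem result (k : Type u) [Field k] (𝒱 : VarClass k) (I : Type) (K : I → Type v)
    [∀ l, Field (K l)] [∀ l, CharZero (K l)] (W : ∀ l, Weil.{u, v, w} 𝒱 (K l))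
    (hW : Compatible W) (X : Strata W) (hb : ∀ l l', X.dimE2 l = X.dimE2 l') (l0 : I)
    (hL : X.HardLefschetz l0) (i0 : ℕ) (hN : ∀ i : ℕ, i0 ≤ i → X.MonoAt l0 X.n i)
    (G : Set (TEnd (W l0) X.Y)) (hG : X.CompatibleWith l0 G)
    (hE : ∀ i j, 1 ≤ i → i + j ≤ X.n → (j = 0 → i < i0) → X.Good l0 G i j) (M : X.Motive) :
    (∀ l, M.WeightMonodromy l) ∧ ∀ w : ℤ, ∃ (A : ℚ[X]) (B : ℕ → ℚ[X]), Law M w A B := by
  classical
  have hY := Strata.yring_sring hW hG.com
  refine ⟨(Strata.all_T12 hW X hb l0 hL i0 hN hY
    (fun i j h1 hij h0 => Strata.gd_goodS hW hG (hE i j h1 hij h0)) M).1, fun w => ?_⟩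
  have : Nonempty I := ⟨l0⟩
  obtain ⟨h⟩ := Strata.nice_T12 hW X hb l0 hL i0 hN hY
    (fun i j h1 hij h0 => Strata.gd_goodS hW hG (hE i j h1 hij h0)) M w
  exact h.indep_pow

end Pool.Agent.Results.MP_a3c811_ag.DoubleLocus
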