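import Pool.Agent.W_a3c811_h61.Fin

/-! Independence of `l` of local Euler factors, and of the kernels of all powers of the monodromy
operator: one prime suffices. -/

namespace Pool.Agent.Results.MP_a3c811_ag.OnePrime

open Polynomial Pool.Agent.WeilH_h6 Pool.Agent.WeilH_h6.VarClass Pool.Agent.H62D Pool.Agent.H62A

universe u v w

variable {k : Type u} [Field k] {𝒱 : VarClass k} {I : Type} {K : I → Type v} [∀ l, Field (K l)]
  [∀ l, CharZero (K l)] {W : ∀ l, Weil.{u, v, w} 𝒱 (K l)} {C : MComplex W}

/-- The kernel in `V^w` of the `j`-th power of the monodromy operator; for `j = 1` these are the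
inertia invariants `R.inv l w`. -/
def kerPow (R : Realisation C) (l : I) (w : ℤ) (j : ℕ) : Submodule (K l) (R.V l) :=
  R.deg l w ⊓ LinearMap.ker (R.ν l ^ j)

/-- The characteristic polynomial of Frobenius on `V^w` is `A` for ALL `l`; on the kernel in `V^w` of
the `j`-th power of the monodromy operator it divides `B j` for ALL `l`, it is `B j` for all good `l`,
and if weight monodromy holds for `l0` then weight monodromy holds and it is `B j` for ALL `l`. -/
def Law (R : Realisation C) (good : I → Prop) (l0 : I) (w : ℤ) (A : ℚ[X]) (B : ℕ → ℚ[X]) : Prop :=
  (∀ l, CharpolyOn (R.φ l) (R.deg l w) A) ∧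
    (∀ j l, CharpolyDvd (R.φ l) (kerPow R l w j) (B j)) ∧
    (∀ j l, good l → CharpolyOn (R.φ l) (kerPow R l w j) (B j)) ∧
    (R.WeightMonodromy l0 →
      ∀ l, R.WeightMonodromy l ∧ ∀ j, CharpolyOn (R.φ l) (kerPow R l w j) (B j))

/-- Let `P i` be separable rational polynomials and `g i` rational polynomials with
`g i (z) = conj z` for every complex root `z` of `P i`.  There is a set `Λ` of primes of positive
lower Dirichlet density with the following property.  Let `W l` be a compatible family of Weil
cohomology theories (any index set, coefficient fields `K l` of characteristic `0`), `C` a complex of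
correspondences between smooth proper varieties `Y a` whose Künneth projectors are given by common
cycles (the `E_1`-term of the weight spectral sequence), with total Betti number independent of `l`,
and `R` the realisations of a motive computed by `C`.  Suppose that for ONE theory `l0` the complex is
good: the standard conjecture `D` holds for the products of two of the `Y a`, or `K l0` is admissible
for `Λ` and the `Y a` are generated by varieties of conjugation type.  Then in every degree `w` there
are rational polynomials `A` and `B j` such that the characteristic polynomial of Frobenius on `V^w`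
is `A` for ALL `l`, and on the kernel in `V^w` of the `j`-th power of the monodromy operator (for
`j = 1` these are the inertia invariants) it divides `B j` for ALL `l`, it is `B j` for all good `l`,
and if weight monodromy holds for `l0` then weight monodromy holds and it is `B j`, all `j`, for ALL
`l`. -/
theorem result (r : ℕ) (P g : Fin r → ℚ[X]) (hP : ∀ i, (P i).Separable)
    (hg : ∀ i, ∀ z : ℂ, aeval z (P i) = 0 → aeval z (g i) = starRingEnd ℂ z) :
    ∃ Λ : Set ℕ, (∀ l ∈ Λ, l.Prime) ∧ PosDirichletDensity Λ ∧
      ∀ (k : Type u) [Field k] (𝒱 : VarClass k) (I : Type) (K : I → Type v) [∀ l, Field (K l)]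
        [∀ l, CharZero (K l)] (W : ∀ l, Weil.{u, v, w} 𝒱 (K l)), Compatible W →
        ∀ (C : MComplex W) (R : Realisation C), (∀ a n, KunnethMotivic W (C.Y a) n) →
          (∀ l l', C.betti l = C.betti l') → ∀ l0, GoodAt P g Λ C l0 → ∀ w,
            ∃ (A : ℚ[X]) (B : ℕ → ℚ[X]), Law R (GoodAt P g Λ C) l0 w A B :=
  Pool.Agent.H61W.final r P g hP hg

end Pool.Agent.Results.MP_a3c811_ag.OnePrime
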