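import Pool.Agent.W_MP_a3c811_h79.Q.AsmE

/-! Independence of `l` without weight monodromy. -/

namespace Pool.Agent.Results.MP_a3c811_ag.SimpleCocycles

open Pool.Agent.WeilH_h6 Pool.Agent.WeilH_h6.VarClass Pool.Agent.H62A Pool.Agent.H62S
  Pool.Agent.H79S

universe u v w

/-- Let `W l` be a compatible family of Weil cohomology theories and `X` the strata of the special
fibre of a semistable degeneration of varieties of dimension `n`, with restrictions, Gysin maps, a
Lefschetz operator `L` and its dual `Lam`, all given by cycles which do not depend on `l` (for `Lam`
this is the Lefschetz standard conjecture for the strata).  Let `M` be the realisations of a motive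
cut out by the motivic projector `ε` of the strata, with Frobenius `c j` times the motivic `ψ` on the
parts of weight `j`.  Suppose that in all theories
* the hard Lefschetz theorem holds for the `E_2`-term (a theorem of Deligne);
* the primitive parts `(i, j)` with `1 ≤ i`, `1 ≤ j` have no nonzero motivic endomorphism of square
  zero as in `NoSquareZero`, and for `2 ≤ i` the map `N ^ i` is bijective from position `-i` to
  position `i` in the middle degree `n` (or `i = 2` and `(2, 0)` has no such endomorphism) (for
  `n = 3` these are theorems of Weil);
* the index theorem holds for the classes of cycles in the primitive part `(1, 0)` (for divisors a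
  theorem);
* the dimension of `V^n` is the same.
Suppose finally that for ONE theory `l0` and a motivic `φ` which commutes with the structure, `ε` and
`ψ` (for instance `φ = ψ`) the characteristic polynomial of `φ` on the transcendental cocycles of the
primitive part `(1, 0)` cut out by `ε` is squarefree.  Then, although weight monodromy may fail, the
characteristic polynomials of Frobenius on `V^w` and on its inertia invariants are rational and do
not depend on `l`, for all `w`. -/
theorem result (k : Type u) [Field k] (𝒱 : VarClass k) (I : Type) (K : I → Type v)
    [∀ l, Field (K l)] [∀ l, CharZero (K l)] (W : ∀ l, Weil.{u, v, w} 𝒱 (K l))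
    (hW : Compatible W) (X : Strata W) (ε φ ψ : ∀ l, TEnd (W l) X.Y) (hc : Cut X ε φ ψ)
    (G : ∀ l, Set (TEnd (W l) X.Y)) (hG : ∀ l, CompatSet X l (G l))
    (hK : ∀ l, Known X l (G l)) (M : X.Motive) (c : ℤ → ℚ) (hM : CutBy M ε ψ c)
    (hd : ∀ l l', dimV M l = dimV M l') (l0 : I) (hs : SimpleOn X l0 (ε l0) (φ l0)) :
    M.Independence :=
  Pool.Agent.H79Q.indepR hW X ε φ ψ hc G hG hK M c hM hd l0 hs

end Pool.Agent.Results.MP_a3c811_ag.SimpleCocycles
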